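import Pool.Agent.MP_cc703c_co.Defs

namespace Pool.Agent.MP_cc703c_co

/-- integer coordinates of the ten vertices -/
def P : Fin 10 → Fin 4 → ℤ :=
  ![![-1, -2, 2, 1],
    ![2, 0, 2, 0],
    ![-2, 2, 1, 2],
    ![-2, 2, -1, 0],
    ![-2, -1, 1, 0],
    ![-1, 0, 1, -2],
    ![2, -1, 0, 1],
    ![1, -1, 0, 2],
    ![-1, 2, -2, 2],
    ![2, 0, 0, 1]]

/-- an integer affine functional -/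
abbrev Cert : Type := ℤ × ℤ × ℤ × ℤ × ℤ

/-- separating functionals for pairs of facets -/
def certs : List (List Cert) :=
  [[(1, 1, 1, 0, 1), (1, -1, -3, 2, 3), (-1, -1, 0, 0, 0), (-1, -1, 0, 1, 0), (-1, 2, 2, 3, -3),
    (0, -10, -23, 16, 11), (-1, 2, 2, 4, -4), (0, 2, 2, 2, -1), (-1, 0, 1, 1, -1),
    (-1, 0, 0, -1, 0), (0, 1, 1, 1, -1), (0, 2, 2, 1, -1), (-2, -1, -1, -1, 1),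
    (-1, 0, 1, 0, -1), (-1, 2, 2, 3, -3), (-1, 0, 0, 1, -1), (-1, -1, 1, -1, 1),
    (-22, -28, -45, 44, -31), (1, 10, 11, 0, 0), (-2, -1, 0, -1, 0), (-1, 0, 1, 0, -1),
    (-1, -1, 1, -1, 1), (0, 3, 4, 1, -2), (16, 8, 9, -10, 27), (-1, 0, -1, 0, 1),
    (-1, 0, 0, -1, 1), (-1, 0, 1, -1, 0), (-1, 0, 0, -1, 1)],
   [(0, -1, -2, 1, 1), (0, -1, -1, 0, 1), (-1, -1, -1, 1, -1), (0, -1, -2, 2, 1),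
    (1, -2, -4, 2, 4), (-1, 0, 0, 2, -2), (-1, 2, 2, 2, -2), (-1, -1, -1, 1, -1),
    (-1, -1, -1, -1, 0), (-1, -1, -1, 0, -1), (0, 1, 1, 0, 0), (-1, -1, -1, -1, 1),
    (-1, -1, -1, 1, -1), (-1, 1, 1, 2, -2), (-1, 0, 0, 1, -1), (-1, -1, 0, -1, 0),
    (-33, -46, -70, 60, -42), (3, 6, 6, -2, 6), (-1, -1, 0, -1, 1), (-1, -1, 0, -1, 0),
    (-1, -1, 0, -1, 0), (1, 4, 6, 0, 0), (11, 6, 8, -10, 20), (-1, -1, -1, -1, 0),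
    (-1, -1, -1, -1, 1), (-1, -1, 0, -1, 1), (-1, -1, -1, -1, 1)],
   [(-1, -1, 1, 0, -1), (-1, -1, 0, 1, -1), (-1, 0, 0, 2, -2), (1, -2, -3, 3, 3),
    (-1, -1, -1, 2, -2), (-1, 0, 0, 2, -2), (-1, -1, 0, 1, -1), (-1, 0, 0, -1, 0),
    (-7, 3, 9, -2, -17), (0, 1, 1, 0, 0), (-1, -1, -1, 1, -1), (-1, -1, 0, 1, -1),
    (-1, 0, 0, 2, -2), (-1, -1, 0, 1, -1), (-1, -1, 1, 0, -1), (0, 0, 1, 0, -1),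
    (1, 1, 2, -1, 1), (-1, -1, 0, 0, 0), (-2, -2, 2, -1, 1), (-1, -1, 1, 0, -1),
    (1, 1, 2, -1, 1), (0, 0, 1, 0, -1), (-1, 0, -1, 0, 1), (-1, 0, 0, -1, 1), (-1, -1, 1, 0, 0),
    (-1, -1, 0, 1, -1)],
   [(0, 0, 0, 1, 0), (1, 1, -1, 1, 0), (0, 1, 0, -1, 0), (0, 1, 1, 0, -1), (0, 2, 1, 1, -1),
    (0, 1, 1, 1, -1), (0, 1, 0, -2, 2), (0, 1, 1, 0, -1), (0, 2, 0, -2, 1), (0, 1, 0, -1, 0),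
    (-1, 1, 2, 0, -2), (0, 1, 0, 0, 0), (-1, 2, 2, 2, -2), (-1, -1, 1, -1, 1), (1, 2, 0, -1, 0),
    (0, 2, 1, -2, 0), (-1, 0, 1, -2, 1), (0, 1, 1, 0, -1), (-1, -1, 1, -1, 1), (0, 1, 1, 0, -1),
    (0, 2, 1, -2, -1), (1, 1, -1, 1, 0), (-1, 0, 1, -1, 1), (-1, 0, 1, -1, 1), (-1, 0, 1, -1, 1)],
   [(1, 1, -1, -1, 0), (1, 0, -2, -2, 2), (0, 1, 1, -1, -1), (1, 2, 0, -1, -1), (0, 1, 1, 0, -1),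
    (0, 0, 0, -2, 1), (0, 1, 1, -1, -1), (0, 2, 0, -2, 1), (-2, -2, 1, -2, 2), (0, 0, 0, -1, 0),
    (0, 1, 0, -1, 0), (-1, 0, 1, 1, 0), (-1, -1, 1, -2, 1), (1, 2, -1, -2, 1), (0, 2, 1, -2, -1),
    (-1, -1, 1, -2, 2), (-1, -1, 1, -1, 1), (-1, -1, 1, -2, 1), (1, 1, 0, -1, 0),
    (1, 0, -1, -2, 2), (0, 1, 0, -1, 0), (-1, 0, 1, -1, 1), (-1, 0, 1, -1, 1), (-1, 0, 1, -1, 1)],
   [(0, 0, 0, -1, 0), (0, 0, 1, -1, -1), (0, 0, 1, 0, -1), (0, -1, 2, 0, -2), (0, 0, 0, -2, 1),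
    (-1, 1, 3, -3, -3), (0, 1, 0, -1, 1), (-1, -1, 1, -1, 0), (-1, -1, 1, -1, 0),
    (0, 0, 0, -1, 0), (-1, 0, 1, 1, 0), (0, -1, 1, -1, -1), (0, 0, 1, -1, -1), (0, 0, 1, -1, -1),
    (0, -1, 1, -1, -1), (0, -1, 1, -1, -1), (0, -1, 1, -1, -1), (0, 0, 1, -1, -1),
    (1, -1, 0, -1, 1), (-1, 2, 0, -2, 2), (-1, -1, 1, -1, 1), (-1, -1, 1, -1, 1),
    (-1, -1, 1, -1, 1)],
   [(0, 0, 2, 1, -2), (0, 0, 2, 1, -2), (-1, 0, 2, 2, -1), (0, 1, 0, -2, 2), (-3, 5, 9, -5, -8),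
    (0, 1, 0, -1, 1), (-1, 0, 0, -2, 2), (-1, -1, 1, 0, 0), (-1, 2, 2, -2, -2),
    (-1, 0, 2, 2, -2), (-1, -1, 2, -1, 0), (0, 0, 1, 0, -1), (0, 1, 1, -1, 0),
    (-1, -1, 1, -1, 1), (-2, -2, 2, -1, 1), (-1, -2, 2, 0, 0), (0, 1, 2, -1, -1),
    (0, 0, 1, 0, -1), (-1, 2, 0, -2, 2), (-1, 0, 1, -1, 1), (-1, 0, 1, -1, 1), (-1, 0, 1, -1, 1)],
   [(0, 1, 1, 1, 0), (-1, -1, 0, 1, 0), (0, 0, -1, -2, 2), (0, -1, -1, -2, 1), (0, 0, -1, -1, 1),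
    (-1, -2, -2, -2, 2), (-1, -1, 0, 1, 0), (0, 0, -1, -1, 1), (-1, -1, -1, 1, 0),
    (-1, -2, -1, -1, 1), (0, 0, -1, -1, 1), (1, 1, 1, -2, 2), (-1, -2, -1, -1, 2),
    (-1, -4, -2, -4, 4), (-1, -2, -2, 1, 0), (1, 0, 0, -2, 2), (1, 1, 1, -2, 2),
    (-1, 1, -2, 2, 2), (0, 0, 0, -1, 1), (0, 0, 0, -1, 1), (-1, -1, -1, 0, 1)],
   [(0, -1, 1, 0, -1), (0, -1, -1, -2, 1), (-1, -4, -4, -2, 0), (0, -1, -1, -1, 0),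
    (-1, -2, -2, -2, 2), (-1, -2, 0, 0, 0), (0, -1, -1, -1, 0), (-1, 0, 0, 1, 1),
    (0, -1, 0, -1, 0), (0, -1, -1, -1, 0), (1, -2, 0, -2, 0), (-1, -2, -1, -1, 2),
    (0, -2, -2, -2, 1), (-1, -2, 0, 0, 1), (1, -2, 0, -2, 0), (1, -1, 0, -1, 1),
    (0, -2, -2, -2, 1), (0, -1, 0, -1, 0), (0, -1, 0, -1, 0), (-1, -1, -1, 0, 1)],
   [(0, 0, -1, -1, 1), (1, 1, 0, -1, 0), (1, 2, -2, -2, 2), (0, 0, -1, -1, 1), (1, 0, -2, -2, 0),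
    (0, 0, -2, -1, 1), (0, 1, -1, 0, 1), (1, 1, 0, -1, 0), (1, 2, -2, -2, 2), (1, 0, -1, -2, 2),
    (-1, -2, -1, -1, 2), (-1, -4, -2, -4, 4), (-1, -2, -1, 0, 1), (1, 1, 1, -1, 1),
    (1, 0, -1, -2, 2), (0, -1, -2, -2, 2), (0, 0, -1, -1, 1), (0, 0, 0, -1, 1),
    (-1, -1, -1, 0, 1)],
   [(0, 0, 0, 1, -1), (0, 0, 0, 1, -1), (-1, -1, -1, 0, 1), (-1, -2, 1, 2, -2), (0, 0, 1, 3, -3),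
    (-1, -1, -1, 1, 0), (-1, -2, 0, 2, -2), (-1, -2, -2, 4, -4), (4, 3, 8, -1, -1),
    (-1, -2, 0, 1, 0), (-1, -4, 12, -4, 4), (-1, -2, -1, 2, -1), (3, 2, 6, 0, -3),
    (1, 0, 1, 1, -1), (0, 0, -1, 1, 1), (0, 0, 2, -1, 1), (-1, -1, 1, 0, 1), (-1, -1, -1, 1, 0)],
   [(-1, 3, 0, 5, 0), (-1, -2, -2, -2, 2), (-1, -1, 0, 1, 0), (-1, 2, 0, 6, -2),
    (-1, -1, -1, 1, 0), (-1, -2, -1, -1, 1), (-47, -62, -100, 90, -58), (5, 7, 9, -3, 7),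
    (-1, -2, -1, -1, 2), (-1, -4, -2, -4, 4), (-1, -2, -2, 1, 0), (11, 16, 21, -8, 11),
    (13, 5, 5, -7, 24), (0, 0, -1, 1, 1), (-1, -2, -2, -2, 2), (-1, -2, -2, -2, 2),
    (-1, -1, -1, 0, 1)],
   [(-1, -2, -2, -2, 2), (-1, -2, 0, 0, 0), (0, -1, 0, 0, -1), (-1, -1, -1, 1, 0),
    (0, -1, 0, -1, 0), (0, -1, 0, 0, -1), (1, -2, 0, -2, 0), (-1, -2, -1, -1, 2),
    (0, -2, -1, -2, 1), (-1, -2, -2, 2, -1), (1, -2, 0, -2, 0), (1, -1, 0, -1, 1),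
    (0, -1, -1, -1, 1), (0, -1, 0, -1, 0), (0, -1, 0, -1, 0), (-1, -1, -1, 0, 1)],
   [(-1, -1, 1, 1, 0), (0, 1, 0, 1, 0), (0, 1, 0, 1, 0), (1, 1, 1, 0, -1), (1, 1, 1, 0, -1),
    (2, 2, 2, -1, 1), (-1, -2, 1, 0, 1), (0, -3, 11, -3, 2), (-1, -2, 1, 0, 1), (2, 2, 2, -1, 1),
    (1, 0, 1, 1, -1), (1, 1, -1, 1, 0), (1, 2, 0, 0, 0), (-1, -1, 1, 0, 1), (-1, -1, 1, 0, 1)],
   [(1, 1, -1, -1, 0), (0, 1, 0, 1, 0), (1, 1, 0, -1, 0), (1, 1, -1, -2, 1), (1, 0, -1, -2, 2),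
    (-1, -2, 0, -2, 3), (-1, -4, 0, -6, 6), (-1, -2, 1, -2, 3), (1, 1, 1, -1, 1),
    (1, 0, -1, -2, 2), (1, 1, -1, 0, 0), (0, 0, 0, -1, 1), (0, 0, 0, -1, 1), (-1, -1, 1, -1, 2)],
   [(-1, 2, 0, 2, 2), (0, -1, 1, -1, 0), (1, -2, 2, -2, -2), (1, -2, 0, -2, 0),
    (-1, -2, 1, -1, 2), (0, -2, 0, -2, 1), (-1, -2, 1, -1, 2), (1, -2, 0, -2, 0),
    (1, -1, 0, -1, 1), (0, 0, -1, -1, 2), (0, -1, 1, -1, 0), (0, -1, 1, -1, 0),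
    (0, -1, 1, -1, 0)],
   [(0, -1, 1, -1, 0), (1, 0, 1, -1, -1), (1, -1, 1, -1, -1), (-1, -2, 1, -1, 2),
    (0, -2, 0, -2, 1), (-1, -2, 1, -1, 2), (1, -1, 1, -1, -1), (1, -1, -1, -1, 1),
    (1, -2, -2, -2, 2), (0, -1, 1, -1, 0), (0, -1, 1, -1, 0), (0, -1, 1, -1, 0)],
   [(1, 2, -1, -1, 1), (2, 2, 2, -2, 3), (-3, -4, 0, -2, 6), (-2, -2, 11, -8, 11),
    (-2, -3, 1, -1, 3), (3, 4, 2, 0, 0), (3, 4, 2, -4, 4), (0, 0, -1, 1, 0), (1, 2, 0, 0, 0),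
    (-1, 0, 2, 0, 2), (-1, -1, -1, 1, 0)],
   [(1, 1, 2, -1, 1), (-1, -2, 0, 1, 0), (-1, -4, 12, -4, 3), (-1, -2, -1, 2, -1),
    (1, 1, 2, -1, 1), (1, 0, 1, 0, 1), (-1, 1, -2, 2, 2), (0, 0, 2, -1, 1), (-1, -1, 1, 0, 1),
    (-1, -1, -1, 1, 0)],
   [(-1, -2, -1, 0, 1), (-2, -3, -3, 1, -3), (-1, -2, -2, 1, -1), (-1, -1, -1, 1, -2),
    (0, -1, -1, 0, 0), (-1, 1, -1, 1, 1), (-1, -1, -1, 0, 0), (-1, -1, 0, 1, -1),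
    (-1, -1, -1, 1, -1)],
   [(1, 2, 0, 2, -4), (0, -1, -2, 4, -4), (1, 2, 1, 1, -2), (3, 3, 1, -1, 1), (0, 0, -1, 1, 0),
    (0, 2, -2, -1, 2), (1, 2, 1, 0, -1), (0, 1, -1, 0, 0)],
   [(0, -1, -2, 0, 0), (1, 0, -1, -1, 1), (5, 2, 0, -4, 7), (0, 0, -1, 0, 1), (0, 2, -2, 1, 0),
    (-2, 3, 12, 0, 6), (-1, 1, -1, 1, 1)],
   [(1, 2, 2, 0, 0), (1, 2, 1, -2, 1), (0, 0, -1, 1, 0), (0, 2, -2, -1, 2), (1, 2, 1, -1, 0),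
    (0, 1, -1, 0, 0)],
   [(4, 0, -1, -4, 9), (-1, 1, -1, 1, 1), (-1, -1, -1, 0, 0), (-2, -2, 0, 0, 1),
    (-1, 0, -1, 1, 0)],
   [(-1, 0, -1, 0, 0), (-1, 0, -1, 0, 0), (-1, -1, 0, 1, -1), (-1, 0, -1, 0, 0)],
   [(-1, -1, 1, -1, 1), (-1, -1, 1, -1, 1), (-1, -1, 1, -1, 1)],
   [(-1, -1, 1, 0, 1), (-1, -1, -1, 0, 1)],
   [(-1, -1, -1, 0, 1)],
   []]

/-- functionals proving affine independence of the facets -/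
def indCerts : List (List Cert) :=
  [[(-1, -1, 1, -1, 1), (1, 1, 1, 0, 1), (-1, 0, 0, -1, 0)],
   [(0, 0, 0, 1, 0), (0, 0, -1, 1, 1), (0, -1, -1, -1, 1)],
   [(0, 0, 1, 0, -1), (0, 0, -1, 1, 1), (-1, 0, 0, -1, 0)],
   [(-1, -1, 1, -1, 1), (0, 0, 0, 1, 0), (0, 1, 0, -1, 0)],
   [(0, 1, 1, 0, -1), (-1, 0, 1, 1, 0), (0, 0, 0, -1, 0)],
   [(1, -1, 0, 0, 1), (0, -1, 0, 0, 0), (0, 0, 0, -1, 0)],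
   [(0, 0, 1, 0, -1), (0, 0, 0, 1, 0), (0, -1, 0, 1, 0)],
   [(0, 0, -1, -1, 1), (-1, -1, 0, 1, 0), (0, 0, 0, 1, 0)],
   [(-1, 0, 0, 1, 1), (0, -1, -1, -1, 0), (0, 0, -1, 0, 1)],
   [(1, 1, -1, -1, 0), (1, 1, 0, -1, 0), (0, -1, -1, 0, 1)],
   [(-1, -1, -1, 0, 1), (0, 0, 0, 1, -1), (1, 0, 0, 1, 0)],
   [(-1, -1, 0, 1, 0), (0, 0, 0, -1, 1), (0, -1, -1, -1, 1)],
   [(0, -1, 0, 0, -1), (0, 0, 0, -1, 1), (0, -1, -1, 0, 0)],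
   [(0, 0, 1, -1, 1), (0, 1, 0, 1, 0), (0, -1, 0, 1, 0)],
   [(1, 1, 0, -1, 0), (1, 1, -1, -1, 0), (0, 0, 0, 1, 0)],
   [(0, 1, 0, 0, 1), (0, -1, 0, -1, 0), (0, 0, 0, 1, 0)],
   [(1, 0, 0, -1, -1), (0, -1, 0, -1, 0), (1, -1, -1, -1, 0)],
   [(-1, -1, 0, 1, 0), (-1, -1, -1, 0, 1), (0, -1, -1, 1, 1)],
   [(0, 1, 0, 0, 1), (-1, -1, -1, 0, 1), (0, 0, -1, 0, 1)],
   [(-1, 0, 1, 0, 1), (0, -1, -1, 0, 0), (-1, 0, -1, 1, -1)],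
   [(0, 1, 1, 0, 0), (0, 1, -1, -1, 1), (0, -1, 0, 1, 0)],
   [(0, 0, -1, 0, 0), (0, 0, -1, 1, -1), (1, 0, -1, -1, 1)],
   [(0, 1, 1, 1, -1), (0, 1, -1, -1, 1), (0, -1, -1, 1, 1)],
   [(-1, 0, -1, 1, -1), (0, -1, -1, -1, 1), (0, 0, 0, 1, 0)],
   [(-1, 1, 0, -1, -1), (0, -1, 0, 1, 0), (-1, 0, -1, 0, -1)],
   [(0, -1, 0, -1, 0), (1, -1, -1, 0, 1)],
   [(1, -1, -1, -1, 0), (-1, -1, -1, 0, 1)],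
   [(0, -1, -1, 0, 0), (-1, -1, -1, 0, 1)],
   [(1, -1, -1, -1, -1), (1, 1, -1, -1, 0)]]

end Pool.Agent.MP_cc703c_co
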