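import Mathlib

/-!
The Cairns-type complex of MP_cc703c_co.
Numbering of the vertices: A0 = 0, A1 = 1, B1 = 2, B2 = 3, B3 = 4, B4 = 5, C = 6, D1 = 7, D2 = 8,
D3 = 9.
-/

namespace Pool.Agent.MP_cc703c_co

/-- The 25 triangles and the 4 further edges of the complex. -/
def facets : List (Finset (Fin 10)) :=
  [{0, 2, 3}, {0, 3, 4}, {0, 4, 2}, {1, 2, 3}, {1, 3, 5}, {1, 5, 4}, {1, 4, 2}, {6, 3, 4},
    {6, 4, 5}, {6, 5, 3}, {6, 0, 2}, {6, 0, 3}, {6, 0, 4}, {6, 1, 2}, {6, 1, 3}, {6, 1, 4},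
    {6, 1, 5}, {6, 2, 3}, {6, 2, 4}, {7, 8, 4}, {8, 9, 2}, {9, 7, 3}, {2, 3, 9}, {3, 4, 7},
    {4, 2, 8}, {0, 1}, {6, 7}, {6, 8}, {6, 9}]

/-- All nonempty faces of the complex, as vertex sets. -/
def cairnsFaces : Set (Finset (Fin 10)) := {s | s.Nonempty ∧ ∃ f ∈ facets, s ⊆ f}

/-- There is a geometric simplicial complex in `ℝ^m` combinatorially equivalent to the complex. -/
def HasLinearRealization (m : ℕ) : Prop :=
  ∃ K : Geometry.SimplicialComplex ℝ (EuclideanSpace ℝ (Fin m)), Nonempty (K.faces ≃o cairnsFaces)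

end Pool.Agent.MP_cc703c_co
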