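import Pool.Agent.MP_cc703c_co.Data

namespace Pool.Agent.MP_cc703c_co

open Finset

/-- value of a functional at a vertex -/
def val (c : Cert) (i : Fin 10) : ℤ :=
  c.1 * P i 0 + c.2.1 * P i 1 + c.2.2.1 * P i 2 + c.2.2.2.1 * P i 3 + c.2.2.2.2

/-- sign conditions certifying that two simplices meet in their common face -/
def good (s t : Finset (Fin 10)) (c : Cert) : Bool :=
  (List.finRange 10).all fun i =>
    (!(decide (i ∈ s) && decide (i ∈ t)) || decide (val c i = 0)) &&
    (!(decide (i ∈ s) && !decide (i ∈ t)) || decide (0 < val c i)) &&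
    (!(!decide (i ∈ s) && decide (i ∈ t)) || decide (val c i < 0))

def checkRow (s : Finset (Fin 10)) : List (Finset (Fin 10)) → List Cert → Bool
  | t :: rest, c :: cs => good s t c && checkRow s rest cs
  | [], _ => true
  | _ :: _, [] => false

def checkAll : List (Finset (Fin 10)) → List (List Cert) → Bool
  | s :: rest, r :: rows => checkRow s rest r && checkAll rest rows
  | [], _ => true
  | _ :: _, [] => false

def indOK (s : Finset (Fin 10)) (cs : List Cert) : Bool :=
  (List.finRange 10).all fun i => !decide (i ∈ s) ||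
    cs.any fun c => decide (val c i ≠ 0) &&
      (List.finRange 10).all fun j => !(decide (j ∈ s) && decide (j ≠ i)) || decide (val c j = 0)

def checkInd : List (Finset (Fin 10)) → List (List Cert) → Bool
  | s :: rest, r :: rows => indOK s r && checkInd rest rows
  | [], _ => true
  | _ :: _, [] => false

lemma checkAll_facets : checkAll facets certs = true := by decide +kernel

lemma checkInd_facets : checkInd facets indCerts = true := by decide +kernel

lemma good_spec {s t : Finset (Fin 10)} {c : Cert} (h : good s t c = true) (i : Fin 10) :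
    (i ∈ s → i ∈ t → val c i = 0) ∧ (i ∈ s → i ∉ t → 0 < val c i) ∧
      (i ∉ s → i ∈ t → val c i < 0) := by
  have := List.all_eq_true.1 h i (List.mem_finRange i)
  by_cases h1 : i ∈ s <;> by_cases h2 : i ∈ t <;> simp_all

lemma indOK_spec {s : Finset (Fin 10)} {cs : List Cert} (h : indOK s cs = true) (i : Fin 10)
    (hi : i ∈ s) : ∃ c : Cert, val c i ≠ 0 ∧ ∀ j ∈ s, j ≠ i → val c j = 0 := by
  have := List.all_eq_true.1 h i (List.mem_finRange i)
  simp only [hi, decide_true, Bool.not_true, Bool.false_or] at this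
  obtain ⟨c, _, hc⟩ := List.any_eq_true.1 this
  refine ⟨c, ?_, ?_⟩
  · simp only [Bool.and_eq_true, decide_eq_true_eq] at hc
    exact hc.1
  · intro j hj hji
    simp only [Bool.and_eq_true] at hc
    have := List.all_eq_true.1 hc.2 j (List.mem_finRange j)
    simpa [hj, hji] using this

lemma checkRow_spec {s : Finset (Fin 10)} : ∀ {L : List (Finset (Fin 10))} {R : List Cert},
    checkRow s L R = true → ∀ t ∈ L, ∃ c, good s t c = true
  | [], _, _, t, ht => by simp at ht
  | _ :: _, [], h, _, _ => by simp [checkRow] at h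
  | t' :: rest, c :: cs, h, t, ht => by
    simp only [checkRow, Bool.and_eq_true] at h
    rcases List.mem_cons.1 ht with rfl | ht
    · exact ⟨c, h.1⟩
    · exact checkRow_spec h.2 t ht

lemma checkAll_spec : ∀ {L : List (Finset (Fin 10))} {R : List (List Cert)},
    checkAll L R = true → L.Pairwise fun s t => ∃ c, good s t c = true
  | [], _, _ => List.Pairwise.nil
  | _ :: _, [], h => by simp [checkAll] at h
  | s :: rest, r :: rows, h => by
    simp only [checkAll, Bool.and_eq_true] at h
    exact List.Pairwise.cons (checkRow_spec h.1) (checkAll_spec h.2)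

lemma checkInd_spec : ∀ {L : List (Finset (Fin 10))} {R : List (List Cert)},
    checkInd L R = true → ∀ s ∈ L, ∃ r, indOK s r = true
  | [], _, _, t, ht => by simp at ht
  | _ :: _, [], h, _, _ => by simp [checkInd] at h
  | s' :: rest, r :: rows, h, s, hs => by
    simp only [checkInd, Bool.and_eq_true] at h
    rcases List.mem_cons.1 hs with rfl | hs
    · exact ⟨r, h.1⟩
    · exact checkInd_spec h.2 s hs

/-! ### geometry -/

abbrev E4 : Type := EuclideanSpace ℝ (Fin 4)

/-- the ten points -/
noncomputable def pt (i : Fin 10) : E4 := WithLp.toLp 2 fun k => (P i k : ℝ)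

@[simp] lemma pt_apply (i : Fin 10) (k : Fin 4) : pt i k = (P i k : ℝ) := rfl

lemma P_injective : ∀ i j : Fin 10, (∀ k, P i k = P j k) → i = j := by decide +kernel

lemma pt_injective : Function.Injective pt := by
  intro i j h
  apply P_injective
  intro k
  have : pt i k = pt j k := by rw [h]
  simpa using this

/-- the linear part of a functional -/
noncomputable def lin (c : Cert) : E4 →ₗ[ℝ] ℝ where
  toFun x := c.1 * x 0 + c.2.1 * x 1 + c.2.2.1 * x 2 + c.2.2.2.1 * x 3
  map_add' x y := by
    simp only [PiLp.add_apply]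
    ring
  map_smul' r x := by
    simp only [PiLp.smul_apply, smul_eq_mul, RingHom.id_apply]
    ring

lemma lin_pt (c : Cert) (i : Fin 10) : lin c (pt i) = (val c i : ℝ) - c.2.2.2.2 := by
  simp only [lin, LinearMap.coe_mk, AddHom.coe_mk, pt_apply, val]
  push_cast
  ring

lemma inter_hull {E : Type*} [AddCommGroup E] [Module ℝ E] [DecidableEq E] (s t : Finset E)
    (g : E →ₗ[ℝ] ℝ) (c : ℝ) (h0 : ∀ x ∈ s, x ∈ t → g x = c) (h1 : ∀ x ∈ s, x ∉ t → c < g x)
    (h2 : ∀ x ∈ t, x ∉ s → g x < c) :
    convexHull ℝ (s : Set E) ∩ convexHull ℝ (t : Set E) ⊆ convexHull ℝ (s ∩ t : Set E) := by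
  rintro x ⟨hs, ht⟩
  have hle : g x ≤ c := by
    have : convexHull ℝ (t : Set E) ⊆ {y | g y ≤ c} := by
      apply convexHull_min
      · intro y hy
        by_cases hys : y ∈ s
        · exact (h0 y hys hy).le
        · exact (h2 y hy hys).le
      · exact convex_halfSpace_le g.isLinear c
    exact this ht
  rw [Finset.mem_convexHull'] at hs
  obtain ⟨w, hw0, hw1, hw⟩ := hs
  have hsum : ∑ y ∈ s, w y * (g y - c) = g x - c := by
    rw [← hw, map_sum]
    simp only [mul_sub, Finset.sum_sub_distrib, ← Finset.sum_mul, hw1, one_mul, map_smul,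
      smul_eq_mul]
  have hnn : ∀ y ∈ s, 0 ≤ w y * (g y - c) := by
    intro y hy
    apply mul_nonneg (hw0 y hy)
    by_cases hyt : y ∈ t
    · rw [h0 y hy hyt]; simp
    · linarith [h1 y hy hyt]
  have hz : ∀ y ∈ s, w y * (g y - c) = 0 := by
    apply (Finset.sum_eq_zero_iff_of_nonneg hnn).1
    apply le_antisymm
    · rw [hsum]; linarith
    · exact Finset.sum_nonneg hnn
  have hw2 : ∀ y ∈ s, y ∉ t → w y = 0 := by
    intro y hy hyt
    rcases mul_eq_zero.1 (hz y hy) with h | h
    · exact h
    · exfalso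
      linarith [h1 y hy hyt]
  rw [← Finset.coe_inter, Finset.mem_convexHull']
  refine ⟨w, fun y hy => hw0 y (Finset.mem_inter.1 hy).1, ?_, ?_⟩
  · rw [← hw1]
    apply Finset.sum_subset Finset.inter_subset_left
    intro y hy hy'
    exact hw2 y hy (fun h => hy' (Finset.mem_inter.2 ⟨hy, h⟩))
  · rw [← hw]
    apply Finset.sum_subset Finset.inter_subset_left
    intro y hy hy'
    rw [hw2 y hy (fun h => hy' (Finset.mem_inter.2 ⟨hy, h⟩)), zero_smul]

/-- points of a vertex set -/
noncomputable def img (s : Finset (Fin 10)) : Finset E4 := s.map ⟨pt, pt_injective⟩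

lemma mem_img {s : Finset (Fin 10)} {i : Fin 10} : pt i ∈ img s ↔ i ∈ s := by
  simp [img]

lemma exists_of_mem_img {s : Finset (Fin 10)} {x : E4} (h : x ∈ img s) : ∃ i ∈ s, pt i = x := by
  simpa [img] using h

lemma img_subset {s t : Finset (Fin 10)} : img s ⊆ img t ↔ s ⊆ t := by
  simp [img, Finset.map_subset_map]

/-- convex hulls meet in the hull of the common vertices -/
def Glue (s t : Finset (Fin 10)) : Prop :=
  convexHull ℝ (img s : Set E4) ∩ convexHull ℝ (img t : Set E4) ⊆
    convexHull ℝ ((img s : Set E4) ∩ (img t : Set E4))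

lemma Glue.symm {s t : Finset (Fin 10)} (h : Glue s t) : Glue t s := by
  unfold Glue at *
  rw [Set.inter_comm, Set.inter_comm (img t : Set E4)]
  exact h

lemma Glue.refl (s : Finset (Fin 10)) : Glue s s := by
  unfold Glue
  rw [Set.inter_self, Set.inter_self]

lemma glue_of_good {s t : Finset (Fin 10)} {c : Cert} (h : good s t c = true) : Glue s t := by
  apply inter_hull (img s) (img t) (lin c) (-(c.2.2.2.2 : ℝ))
  · intro x hx hx'
    obtain ⟨i, hi, rfl⟩ := exists_of_mem_img hx
    rw [mem_img] at hx'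
    rw [lin_pt, (good_spec h i).1 hi hx']
    simp
  · intro x hx hx'
    obtain ⟨i, hi, rfl⟩ := exists_of_mem_img hx
    rw [mem_img] at hx'
    rw [lin_pt]
    have := (good_spec h i).2.1 hi hx'
    have : (0 : ℝ) < (val c i : ℝ) := by exact_mod_cast this
    linarith
  · intro x hx hx'
    obtain ⟨i, hi, rfl⟩ := exists_of_mem_img hx
    rw [mem_img] at hx'
    rw [lin_pt]
    have := (good_spec h i).2.2 hx' hi
    have : (val c i : ℝ) < (0 : ℝ) := by exact_mod_cast this
    linarith

lemma glue_facets : ∀ s ∈ facets, ∀ t ∈ facets, Glue s t := by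
  have h := checkAll_spec checkAll_facets
  have h' : facets.Pairwise Glue := h.imp fun ⟨c, hc⟩ => glue_of_good hc
  intro s hs t ht
  have : Std.Symm Glue := ⟨fun _ _ h => Glue.symm h⟩
  exact List.Pairwise.forall_of_forall (fun s _ => Glue.refl s) h' hs ht

lemma indep_facets : ∀ s ∈ facets, AffineIndependent ℝ ((↑) : img s → E4) := by
  intro s hs
  obtain ⟨r, hr⟩ := checkInd_spec checkInd_facets s hs
  rw [affineIndependent_iff]
  intro u w hw0 hw1 e he
  obtain ⟨i, hi, hie⟩ := exists_of_mem_img e.2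
  obtain ⟨c, hc0, hc1⟩ := indOK_spec hr i hi
  have h1 : ∑ x ∈ u, w x * ((lin c) (x : E4) + c.2.2.2.2) = 0 := by
    have := congrArg (lin c) hw1
    simp only [map_sum, map_smul, smul_eq_mul, map_zero] at this
    simp only [mul_add, Finset.sum_add_distrib, ← Finset.sum_mul, hw0, zero_mul, add_zero]
    exact this
  have h2 : ∑ x ∈ u, w x * ((lin c) (x : E4) + c.2.2.2.2) =
      w e * ((lin c) (e : E4) + c.2.2.2.2) := by
    apply Finset.sum_eq_single_of_mem e he
    intro x _ hxe
    obtain ⟨j, hj, hjx⟩ := exists_of_mem_img x.2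
    have hji : j ≠ i := by
      rintro rfl
      exact hxe (Subtype.ext (hjx.symm.trans hie))
    rw [← hjx, lin_pt, hc1 j hj hji]
    simp
  rw [h2, ← hie, lin_pt] at h1
  have h3 : (val c i : ℝ) ≠ 0 := by exact_mod_cast hc0
  have h4 : w e * (val c i : ℝ) = 0 := by
    rw [← h1]; ring
  rcases mul_eq_zero.1 h4 with h | h
  · exact h
  · exact absurd h h3

lemma indep_sub {s f : Finset (Fin 10)} (hf : f ∈ facets) (hs : s ⊆ f) :
    AffineIndependent ℝ ((↑) : img s → E4) := by
  have := indep_facets f hf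
  exact this.mono (s := (img s : Set E4)) (t := (img f : Set E4)) (by
    exact_mod_cast img_subset.2 hs)

lemma glue_sub {s t f g : Finset (Fin 10)} (hf : f ∈ facets) (hg : g ∈ facets) (hs : s ⊆ f)
    (ht : t ⊆ g) : Glue s t := by
  rintro x ⟨hxs, hxt⟩
  have hs' : img s ⊆ img f := img_subset.2 hs
  have ht' : img t ⊆ img g := img_subset.2 ht
  have hxf : x ∈ convexHull ℝ (img f : Set E4) :=
    convexHull_mono (by exact_mod_cast hs') hxs
  have hxg : x ∈ convexHull ℝ (img g : Set E4) :=
    convexHull_mono (by exact_mod_cast ht') hxt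
  have h1 := glue_facets f hf g hg ⟨hxf, hxg⟩
  -- inside f
  have h2 : x ∈ convexHull ℝ ((img s : Set E4) ∩ ((img f ∩ img g : Finset E4) : Set E4)) := by
    rw [(indep_facets f hf).convexHull_inter hs' Finset.inter_subset_left]
    exact ⟨hxs, by rw [Finset.coe_inter]; exact h1⟩
  have h3 : x ∈ convexHull ℝ ((img s ∩ img g : Finset E4) : Set E4) := by
    refine convexHull_mono ?_ h2
    intro y hy
    simp only [Finset.coe_inter, Set.mem_inter_iff, Finset.mem_coe] at hy ⊢
    exact ⟨hy.1, hy.2.2⟩
  have h4 : x ∈ convexHull ℝ ((img t : Set E4) ∩ ((img s ∩ img g : Finset E4) : Set E4)) := by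
    rw [(indep_facets g hg).convexHull_inter ht' Finset.inter_subset_right]
    exact ⟨hxt, h3⟩
  refine convexHull_mono ?_ h4
  intro y hy
  simp only [Finset.coe_inter, Set.mem_inter_iff, Finset.mem_coe] at hy ⊢
  exact ⟨hy.2.1, hy.1⟩

/-- the realization -/
noncomputable def realization : Geometry.SimplicialComplex ℝ E4 where
  faces := {u | ∃ s ∈ cairnsFaces, u = img s}
  isRelLowerSet_faces := by
    rintro u ⟨s, ⟨hs, f, hf, hsf⟩, rfl⟩
    refine ⟨?_, ?_⟩
    · obtain ⟨i, hi⟩ := hs
      exact ⟨pt i, mem_img.2 hi⟩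
    · intro v hv hvne
      refine ⟨Finset.univ.filter fun i => pt i ∈ v, ⟨?_, f, hf, ?_⟩, ?_⟩
      · obtain ⟨x, hx⟩ := hvne
        obtain ⟨i, _, rfl⟩ := exists_of_mem_img (hv hx)
        exact ⟨i, by simp [hx]⟩
      · intro i hi
        simp only [Finset.mem_filter, Finset.mem_univ, true_and] at hi
        exact hsf (mem_img.1 (hv hi))
      · ext x
        constructor
        · intro hx
          obtain ⟨i, _, rfl⟩ := exists_of_mem_img (hv hx)
          rw [mem_img]
          simp [hx]
        · intro hx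
          obtain ⟨i, hi, rfl⟩ := exists_of_mem_img hx
          simpa using hi
  indep := by
    rintro u ⟨s, ⟨_, f, hf, hsf⟩, rfl⟩
    exact indep_sub hf hsf
  inter_subset_convexHull := by
    rintro u v ⟨s, ⟨_, f, hf, hsf⟩, rfl⟩ ⟨t, ⟨_, g, hg, htg⟩, rfl⟩
    exact glue_sub hf hg hsf htg

lemma hasLinearRealization : HasLinearRealization 4 := by
  refine ⟨realization, ⟨RelIso.symm ?_⟩⟩
  refine ⟨Equiv.ofBijective (fun s => ⟨img s.1, s.1, s.2, rfl⟩) ⟨?_, ?_⟩, ?_⟩
  · intro s t h
    have h' : img s.1 = img t.1 := congrArg Subtype.val h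
    exact Subtype.ext (Finset.Subset.antisymm (img_subset.1 h'.le) (img_subset.1 h'.ge))
  · rintro ⟨u, s, hs, rfl⟩
    exact ⟨⟨s, hs⟩, rfl⟩
  · intro s t
    exact img_subset

end Pool.Agent.MP_cc703c_co
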